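import Pool.Agent.Helper98_PP.StmtsR2
import Pool.Agent.Helper79_WRA.Basic

/-!
# Squad PP, part R2, module BOX: reduction to closed chains
-/

open scoped BigOperators

set_option autoImplicit false
set_option linter.unusedSectionVars false

noncomputable section

namespace Pool.Agent.PP.H43

open Pool.Agent.Helper51_AWC Pool.Agent.Helper79_WRA Pool.Agent.PP

section comb

variable {A : Type*} [PartialOrder A]

/-- cancellation by toggling, complex values -/
theorem sum_toggleC [DecidableEq A] (S : Finset (Finset A)) (e : Finset A → A)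
    (f : Finset A → ℂ) (h1 : ∀ d ∈ S, toggle d (e d) ∈ S)
    (h2 : ∀ d ∈ S, e (toggle d (e d)) = e d)
    (h3 : ∀ d ∈ S, f (toggle d (e d)) = - f d) : ∑ d ∈ S, f d = 0 := by
  apply Finset.sum_involution (fun d _ => toggle d (e d))
  · intro d hd; rw [h3 d hd]; ring
  · intro d _ _; exact toggle_ne _ _
  · intro d hd; exact h1 d hd
  · intro d hd
    rw [h2 d hd, toggle_toggle]

/-- cancellation by a closure operator `c` : only the chains of closed elements remain -/
theorem sum_closureC [DecidableEq A] (s : Finset A) (b : A)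
    (c : A → A)
    (hs : ∀ x ∈ s, c x ∈ s) (hle : ∀ x ∈ s, x ≤ c x)
    (hmono : ∀ x ∈ s, ∀ y ∈ s, x ≤ y → c x ≤ c y) (hidem : ∀ x ∈ s, c (c x) = c x)
    (hb : c b = b) (hbl : ∀ x ∈ s, b ≤ x) (f : Finset A → ℂ)
    (hf : ∀ d ∈ chainsOn s b, ∀ x ∈ d, c x ∉ d → f (insert (c x) d) = - f d) :
    ∑ d ∈ chainsOn s b, f d = ∑ d ∈ (chainsOn s b).filter (fun d => ∀ x ∈ d, c x = x), f d := by
  classical
  rw [← Finset.sum_filter_add_sum_filter_not (chainsOn s b) (fun d => ∀ x ∈ d, c x = x)]
  rw [add_eq_left]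
  -- the greatest non-closed element
  have hex : ∀ d : Finset A, ∃ m : A, d ∈ (chainsOn s b).filter (fun d => ¬ ∀ x ∈ d, c x = x) →
      m ∈ d ∧ c m ≠ m ∧ ∀ y ∈ d, c y ≠ y → y ≤ m := by
    intro d
    by_cases hd : d ∈ (chainsOn s b).filter (fun d => ¬ ∀ x ∈ d, c x = x)
    · have hd' := hd
      rw [Finset.mem_filter, mem_chainsOn] at hd'
      obtain ⟨⟨_, _, hch⟩, hne⟩ := hd'
      push Not at hne
      obtain ⟨x, hx, hxc⟩ := hne
      obtain ⟨m, hm, hmax⟩ := exists_greatest (d := d.filter (fun x => c x ≠ x))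
        (hch.mono (by intro y hy; exact Finset.mem_of_mem_filter y hy))
        ⟨x, Finset.mem_filter.2 ⟨hx, hxc⟩⟩
      rw [Finset.mem_filter] at hm
      exact ⟨m, fun _ => ⟨hm.1, hm.2, fun y hy hyc => hmax y (Finset.mem_filter.2 ⟨hy, hyc⟩)⟩⟩
    · exact ⟨b, fun h => absurd h hd⟩
  choose m hm using hex
  have hkey : ∀ d ∈ (chainsOn s b).filter (fun d => ¬ ∀ x ∈ d, c x = x),
      toggle d (c (m d)) ∈ (chainsOn s b).filter (fun d => ¬ ∀ x ∈ d, c x = x) ∧
      m (toggle d (c (m d))) = m d := by
    intro d hd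
    obtain ⟨hmd, hmc, hmax⟩ := hm d hd
    have hd' := hd
    rw [Finset.mem_filter, mem_chainsOn] at hd'
    obtain ⟨⟨hsub, hbd, hch⟩, -⟩ := hd'
    have hms := hsub hmd
    have hmem : toggle d (c (m d)) ∈ (chainsOn s b).filter (fun d => ¬ ∀ x ∈ d, c x = x) := by
      rw [Finset.mem_filter, mem_chainsOn]
      unfold toggle
      split_ifs with h
      · refine ⟨⟨(Finset.erase_subset _ _).trans hsub, ?_, ?_⟩, ?_⟩
        · rw [Finset.mem_erase]
          refine ⟨?_, hbd⟩
          intro hbe
          -- `b = c (m d)`, then `m d ≤ b`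
          apply hmc
          have h1 : m d ≤ b := hbe ▸ hle _ hms
          have : m d = b := le_antisymm h1 (hbl _ hms)
          rw [this, hb]
        · exact hch.mono (by intro y hy; exact Finset.mem_of_mem_erase hy)
        · push Not
          exact ⟨m d, Finset.mem_erase.2 ⟨fun h' => hmc h'.symm, hmd⟩, hmc⟩
      · refine ⟨⟨?_, Finset.mem_insert_of_mem hbd, ?_⟩, ?_⟩
        · intro y hy
          rcases Finset.mem_insert.1 hy with rfl | hy
          · exact hs _ hms
          · exact hsub hy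
        · rw [Finset.coe_insert]
          apply hch.insert
          intro y hy hne
          rcases chain_total hch hy hmd with h1 | h1
          · right; exact h1.trans (hle _ hms)
          · by_cases hyc : c y = y
            · left
              rw [← hyc]; exact hmono _ hms _ (hsub hy) h1
            · have := hmax y hy hyc
              have : y = m d := le_antisymm this h1
              right; rw [this]; exact hle _ hms
        · push Not
          exact ⟨m d, Finset.mem_insert_of_mem hmd, hmc⟩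
    refine ⟨hmem, ?_⟩
    obtain ⟨h1, h2, h3⟩ := hm _ hmem
    have hmt : m d ∈ toggle d (c (m d)) := by
      unfold toggle
      split_ifs with h
      · exact Finset.mem_erase.2 ⟨fun h' => hmc h'.symm, hmd⟩
      · exact Finset.mem_insert_of_mem hmd
    apply le_antisymm
    · have h4 : m (toggle d (c (m d))) ∈ d := by
        generalize m (toggle d (c (m d))) = t at h1 h2
        unfold toggle at h1
        split_ifs at h1 with h
        · exact Finset.mem_of_mem_erase h1
        · rcases Finset.mem_insert.1 h1 with h' | h'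
          · exfalso; apply h2; rw [h', hidem _ hms]
          · exact h'
      exact hmax _ h4 h2
    · exact h3 _ hmt hmc
  apply sum_toggleC _ (fun d => c (m d))
  · intro d hd; exact (hkey d hd).1
  · intro d hd; rw [(hkey d hd).2]
  · intro d hd
    obtain ⟨hmd, hmc, hmax⟩ := hm d hd
    have hd' := Finset.mem_filter.1 hd
    simp only [toggle]
    split_ifs with h
    · have h1 : d.erase (c (m d)) ∈ chainsOn s b := by
        have := (hkey d hd).1
        unfold toggle at this
        rw [if_pos h] at this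
        exact (Finset.mem_filter.1 this).1
      have h2 := hf _ h1 (m d) (Finset.mem_erase.2 ⟨fun h' => hmc h'.symm, hmd⟩)
        (Finset.notMem_erase _ _)
      rw [Finset.insert_erase h] at h2
      rw [h2]; ring
    · exact hf d hd'.1 (m d) hmd h

end comb

section auto

variable {Y : Type} [Group Y]

theorem map_eq_iff {γ : MulAut Y} {D : Subgroup Y} :
    D.map γ.toMonoidHom = D ↔ ∀ x, γ x ∈ D ↔ x ∈ D := by
  constructor
  · intro h x
    constructor
    · intro hx
      rw [← h] at hx
      obtain ⟨y, hy, hyx⟩ := Subgroup.mem_map.1 hx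
      have : y = x := γ.injective hyx
      rwa [← this]
    · intro hx
      rw [← h]
      exact Subgroup.mem_map.2 ⟨x, hx, rfl⟩
  · intro h
    ext x
    rw [Subgroup.mem_map]
    constructor
    · rintro ⟨y, hy, rfl⟩
      exact (h y).2 hy
    · intro hx
      refine ⟨γ⁻¹ x, ?_, ?_⟩
      · apply (h _).1
        have : γ (γ⁻¹ x) = x := γ.apply_symm_apply x
        rwa [this]
      · exact γ.apply_symm_apply x

theorem norm_iff {γ : MulAut Y} {E : Subgroup Y} (h : E.map γ.toMonoidHom = E) (x : Y) :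
    γ x ∈ Subgroup.normalizer (E : Set Y) ↔ x ∈ Subgroup.normalizer (E : Set Y) := by
  rw [map_eq_iff] at h
  rw [Subgroup.mem_normalizer_iff, Subgroup.mem_normalizer_iff]
  constructor
  · intro h1 y
    rw [← h y, h1 (γ y), ← map_mul, ← map_inv, ← map_mul, h]
  · intro h1 y
    obtain ⟨z, rfl⟩ := γ.surjective y
    rw [← map_mul, ← map_inv, ← map_mul, h, h]
    exact h1 z

/-- the subgroups `D ∩ ⋂ N(E)` are fixed by the automorphisms fixing `D` and the `E` -/
theorem map_loc {γ : MulAut Y} {D : Subgroup Y} {s : Finset (Subgroup Y)}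
    (hD : D.map γ.toMonoidHom = D) (hs : ∀ E ∈ s, E.map γ.toMonoidHom = E) :
    (D ⊓ ⨅ E ∈ s, Subgroup.normalizer (E : Set Y) : Subgroup Y).map γ.toMonoidHom =
      D ⊓ ⨅ E ∈ s, Subgroup.normalizer (E : Set Y) := by
  rw [map_eq_iff]
  intro x
  simp only [Subgroup.mem_inf, Subgroup.mem_iInf]
  rw [map_eq_iff.1 hD x]
  refine and_congr_right fun _ => forall_congr' fun E => forall_congr' fun hE => ?_
  exact norm_iff (hs E hE) x

theorem fixC_insert [DecidableEq (Subgroup Y)] {γ : MulAut Y} {d : Finset (Subgroup Y)}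
    {R : Subgroup Y} (h : FixC γ d → R.map γ.toMonoidHom = R) :
    FixC γ (insert R d) ↔ FixC γ d := by
  constructor
  · intro h1 D hD
    exact h1 D (Finset.mem_insert_of_mem hD)
  · intro h1 D hD
    rcases Finset.mem_insert.1 hD with rfl | hD
    · exact h h1
    · exact h1 D hD

theorem mem_stab_fixC {d : Finset (Subgroup Y)} {g : Y} :
    g ∈ stab d ↔ FixC (MulAut.conj g) d := mem_stab

theorem stab_insert' [DecidableEq (Subgroup Y)] {d : Finset (Subgroup Y)} {R : Subgroup Y}
    (h : ∀ g, FixC (MulAut.conj g) d → R.map (MulAut.conj g).toMonoidHom = R) :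
    stab (insert R d) = stab d := by
  ext g
  rw [mem_stab_fixC, mem_stab_fixC]
  exact fixC_insert (h g)

open Classical in
/-- the weight -/
def Wt {F : Type} [Field F] (τ : F → ℂ) (f : Y → F) (γ δ : MulAut Y) (v : Y → F)
    (d : Finset (Subgroup Y)) : ℂ :=
  if FixC γ d ∧ FixC δ d then tcon τ f γ δ v d else 0

theorem wt_insert [DecidableEq (Subgroup Y)] {F : Type} [Field F] {τ : F → ℂ} {f : Y → F}
    {γ δ : MulAut Y} {v : Y → F} {d : Finset (Subgroup Y)} {R : Subgroup Y}
    (h1 : FixC γ d → R.map γ.toMonoidHom = R) (h2 : FixC δ d → R.map δ.toMonoidHom = R)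
    (h3 : ∀ g, FixC (MulAut.conj g) d → R.map (MulAut.conj g).toMonoidHom = R) :
    Wt τ f γ δ v (insert R d) = Wt τ f γ δ v d := by
  unfold Wt
  have e1 : (FixC γ (insert R d) ∧ FixC δ (insert R d)) ↔ (FixC γ d ∧ FixC δ d) :=
    and_congr (fixC_insert h1) (fixC_insert h2)
  have e2 : tcon τ f γ δ v (insert R d) = tcon τ f γ δ v d := by
    unfold tcon
    rw [stab_insert' h3]
  by_cases h : FixC γ d ∧ FixC δ d
  · rw [if_pos h, if_pos (e1.2 h), e2]
  · rw [if_neg h, if_neg (fun h' => h (e1.1 h'))]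

end auto

open Classical in
/-- **BOX** -/
theorem box (hN : NcgStmt) : BoxStmt := by
  intro ℓ _ F _ _ Y _ _ f α β w τ c hcp hcl hcm hci hcb hcn hca hcβ hcs
  have key : ∀ n m : Y,
      ∑ d ∈ (chainsOn (psubIn ℓ (⊤ : Subgroup Y)) ⊥).filter
        (fun d => NormalChain d ∧ FixC (tw α n) d ∧ FixC (tw β m) d), (-1) ^ (d.card + 1) *
          tcon τ f (tw α n) (tw β m) (fun y => w (cc α β n m * y)) d =
      ∑ d ∈ (chainsOn (psubIn ℓ (⊤ : Subgroup Y)) ⊥).filter
        (fun d => NormalChain d ∧ (FixC (tw α n) d ∧ FixC (tw β m) d) ∧ ∀ D ∈ d, c D = D),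
          (-1) ^ (d.card + 1) * tcon τ f (tw α n) (tw β m) (fun y => w (cc α β n m * y)) d := by
    intro n m
    set γ := tw α n with hγ
    set δ := tw β m with hδ
    set v : Y → F := fun y => w (cc α β n m * y) with hv
    set P := psubIn ℓ (⊤ : Subgroup Y) with hP
    have hPm : ∀ D : Subgroup Y, D ∈ P ↔ IsPGroup ℓ D := by
      intro D
      rw [hP, mem_psubIn]
      exact ⟨fun h => h.2, fun h => ⟨le_top, h⟩⟩
    have hcγ : ∀ D : Subgroup Y, c (D.map γ.toMonoidHom) = (c D).map γ.toMonoidHom := by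
      intro D
      have e : ∀ D : Subgroup Y, D.map γ.toMonoidHom =
          (D.map (MulAut.conj n).toMonoidHom).map α.toMonoidHom := by
        intro D
        rw [Subgroup.map_map]
        rfl
      rw [e, e, hca, hcn]
    have hcδ : ∀ D : Subgroup Y, c (D.map δ.toMonoidHom) = (c D).map δ.toMonoidHom := by
      intro D
      have e : ∀ D : Subgroup Y, D.map δ.toMonoidHom =
          (D.map (MulAut.conj m).toMonoidHom).map β.toMonoidHom := by
        intro D
        rw [Subgroup.map_map]
        rfl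
      rw [e, e, hcβ, hcn]
    -- step 0
    have s0 : ∑ d ∈ (chainsOn P ⊥).filter (fun d => NormalChain d ∧ FixC γ d ∧ FixC δ d),
        (-1) ^ (d.card + 1) * tcon τ f γ δ v d =
        ∑ d ∈ (chainsOn P ⊥).filter NormalChain, (-1) ^ (d.card + 1) * Wt τ f γ δ v d := by
      rw [Finset.sum_filter, Finset.sum_filter]
      refine Finset.sum_congr rfl fun d _ => ?_
      unfold Wt
      by_cases h1 : NormalChain d
      · by_cases h2 : FixC γ d ∧ FixC δ d
        · rw [if_pos ⟨h1, h2⟩, if_pos h1, if_pos h2]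
        · rw [if_neg (fun h => h2 h.2), if_pos h1, if_neg h2, mul_zero]
      · rw [if_neg (fun h => h1 h.1), if_neg h1]
    have hloc : ∀ (s : Finset (Subgroup Y)) (D : Subgroup Y) (d : Finset (Subgroup Y)), s ⊆ d →
        D ∈ d → Wt τ f γ δ v (insert (D ⊓ ⨅ E ∈ s, Subgroup.normalizer (E : Set Y)) d) =
          Wt τ f γ δ v d := by
      intro s D d hs hD
      exact wt_insert (fun h => map_loc (h D hD) fun E hE => h E (hs hE))
        (fun h => map_loc (h D hD) fun E hE => h E (hs hE))
        (fun g h => map_loc (h D hD) fun E hE => h E (hs hE))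
    have hbot : (⊥ : Subgroup Y) ∈ P := (hPm _).2 IsPGroup.of_bot
    have hsub : ∀ D ∈ P, ∀ E : Subgroup Y, E ≤ D → E ∈ P := by
      intro D hD E hE
      rw [hPm] at hD ⊢
      exact hD.to_le hE
    -- step 1
    have s1 : ∑ d ∈ chainsOn P ⊥, (-1) ^ (d.card + 1) * Wt τ f γ δ v d =
        ∑ d ∈ (chainsOn P ⊥).filter NormalChain, (-1) ^ (d.card + 1) * Wt τ f γ δ v d :=
      hN ℓ Y P (Wt τ f γ δ v) (fun D hD => (hPm D).1 hD) hbot
        (fun s _ D hD _ => hsub D hD _ inf_le_left)
        (fun d _ s hs D hD _ => hloc s D d hs hD)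
    -- step 2
    have s2 : ∑ d ∈ chainsOn P ⊥, (-1) ^ (d.card + 1) * Wt τ f γ δ v d =
        ∑ d ∈ (chainsOn P ⊥).filter (fun d => ∀ x ∈ d, c x = x),
          (-1) ^ (d.card + 1) * Wt τ f γ δ v d := by
      apply sum_closureC P ⊥ c (fun x hx => (hPm _).2 (hcp x ((hPm _).1 hx))) (fun x _ => hcl x)
        (fun x _ y _ h => hcm x y h) (fun x _ => hci x) hcb (fun x _ => bot_le)
      intro d _ x hx hcx
      have e1 : Wt τ f γ δ v (insert (c x) d) = Wt τ f γ δ v d := by
        apply wt_insert
        · intro h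
          rw [← hcγ, h x hx]
        · intro h
          rw [← hcδ, h x hx]
        · intro g h
          rw [← hcn, h x hx]
      rw [e1, Finset.card_insert_of_notMem hcx]
      ring
    -- step 3
    have hch : (chainsOn P ⊥).filter (fun d => ∀ x ∈ d, c x = x) =
        chainsOn (P.filter fun D => c D = D) ⊥ := by
      ext d
      rw [Finset.mem_filter, mem_chainsOn, mem_chainsOn]
      constructor
      · rintro ⟨⟨h1, h2, h3⟩, h4⟩
        exact ⟨fun D hD => Finset.mem_filter.2 ⟨h1 hD, h4 D hD⟩, h2, h3⟩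
      · rintro ⟨h1, h2, h3⟩
        exact ⟨⟨fun D hD => (Finset.mem_filter.1 (h1 hD)).1, h2, h3⟩,
          fun D hD => (Finset.mem_filter.1 (h1 hD)).2⟩
    have s3 : ∑ d ∈ chainsOn (P.filter fun D => c D = D) ⊥,
          (-1) ^ (d.card + 1) * Wt τ f γ δ v d =
        ∑ d ∈ (chainsOn (P.filter fun D => c D = D) ⊥).filter NormalChain,
          (-1) ^ (d.card + 1) * Wt τ f γ δ v d :=
      hN ℓ Y (P.filter fun D => c D = D) (Wt τ f γ δ v)
        (fun D hD => (hPm D).1 (Finset.mem_filter.1 hD).1)
        (Finset.mem_filter.2 ⟨hbot, hcb⟩)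
        (fun s hs D hD hle => Finset.mem_filter.2
          ⟨hsub D (Finset.mem_filter.1 hD).1 _ inf_le_left,
            hcs s (fun E hE => (Finset.mem_filter.1 (hs hE)).2) D (Finset.mem_filter.1 hD).2 hle⟩)
        (fun d _ s hs D hD _ => hloc s D d hs hD)
    rw [s0, ← s1, s2, hch, s3, ← hch]
    rw [Finset.filter_filter, Finset.sum_filter, Finset.sum_filter]
    refine Finset.sum_congr rfl fun d _ => ?_
    unfold Wt
    by_cases h1 : NormalChain d
    · by_cases h3 : ∀ x ∈ d, c x = x
      · by_cases h2 : FixC γ d ∧ FixC δ d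
        · rw [if_pos ⟨h3, h1⟩, if_pos h2, if_pos ⟨h1, h2, h3⟩]
        · rw [if_pos ⟨h3, h1⟩, if_neg h2, if_neg (fun h => h2 h.2.1), mul_zero]
      · rw [if_neg (fun h => h3 h.1), if_neg (fun h => h3 h.2.2)]
    · rw [if_neg (fun h => h1 h.2), if_neg (fun h => h1 h.1)]
  unfold DD
  exact finsum_congr fun n => finsum_congr fun m => key n m

end Pool.Agent.PP.H43
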