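import Pool.Agent.Helper97_PP.Kri
import Pool.Agent.Helper66_PP.StmtsLQ

/-!
# Squad PP, module CAN: chains normalised by an `ℓ`-element `u` with `⟨u⟩ ∩ Y ≠ 1` cancel
-/

open scoped BigOperators

noncomputable section

namespace Pool.Agent.PP.H43

open Pool.Agent.PP Pool.Agent.PP.H97 Pool.Agent.Helper51_AWC Pool.Agent.Helper79_WRA

section can

variable {G : Type} [Group G]

theorem cent_le_norm' {g u : G} {U : Subgroup G} (hU : U ≤ Subgroup.zpowers u)
    (hg : g ∈ Subgroup.centralizer ({u} : Set G)) :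
    g ∈ Subgroup.normalizer (U : Set G) := by
  rw [Subgroup.mem_centralizer_singleton_iff] at hg
  have h : ∀ x ∈ U, g * x * g⁻¹ = x := by
    intro x hx
    obtain ⟨k, rfl⟩ := hU hx
    have h1 : Commute g u := hg
    change g * u ^ k * g⁻¹ = u ^ k
    rw [(h1.zpow_right k).eq, mul_inv_cancel_right]
  rw [Subgroup.mem_normalizer_iff_map_conj_eq]
  ext x
  rw [Subgroup.mem_map]
  constructor
  · rintro ⟨y, hy, rfl⟩
    change g * y * g⁻¹ ∈ U
    rw [h y hy]
    exact hy
  · intro hx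
    exact ⟨x, hx, h x hx⟩

theorem stab_insertU [DecidableEq (Subgroup G)] {u : G} {d : Finset (Subgroup G)}
    {P U : Subgroup G} (hU : U ≤ Subgroup.zpowers u) (hP : P ∈ d) :
    Subgroup.centralizer ({u} : Set G) ⊓ stab (insert (P ⊔ U) d) =
      Subgroup.centralizer ({u} : Set G) ⊓ stab d := by
  ext g
  rw [Subgroup.mem_inf, Subgroup.mem_inf, H97.mem_stab, H97.mem_stab]
  refine and_congr_right fun hg => ?_
  constructor
  · intro h D hD
    exact h D (Finset.mem_insert_of_mem hD)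
  · intro h D hD
    rcases Finset.mem_insert.1 hD with rfl | hD
    · exact norm_sup (h P hP) (cent_le_norm' hU hg)
    · exact h D hD

theorem top_insertU [DecidableEq (Subgroup G)] {d : Finset (Subgroup G)}
    {P U : Subgroup G} (hP : P ∈ d) :
    U ⊔ top (insert (P ⊔ U) d) = U ⊔ top d := by
  rw [H97.top_insert]
  have h := H97.le_tp hP
  apply le_antisymm
  · refine sup_le le_sup_left (sup_le (sup_le (h.trans le_sup_right) le_sup_left) le_sup_right)
  · exact sup_le le_sup_left (le_sup_right.trans le_sup_right)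

theorem mem_psubIn' [Finite G] {ℓ : ℕ} {Y D : Subgroup G} :
    D ∈ psubIn ℓ Y ↔ D ≤ Y ∧ IsPGroup ℓ D := by
  rw [psubIn, Set.Finite.mem_toFinset, Set.mem_ofPred_eq]

open Classical in
theorem canU [Finite G] {ℓ : ℕ} (Y : Subgroup G) (u : G) (hu : ∃ n : ℕ, u ^ ℓ ^ n = 1)
    (U : Subgroup G) (hU : U ≤ Subgroup.zpowers u) (hUY : U ≤ Y) (hU1 : U ≠ ⊥)
    (W : Subgroup G → Subgroup G → ℤ)
    (hW : ∀ X R : Subgroup G, X ≤ Subgroup.centralizer ({u} : Set G) → W X (U ⊔ R) = W X R) :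
    ∑ d ∈ (chainsOn (psubIn ℓ Y) ⊥).filter (fun d => u ∈ stab d),
      (-1) ^ (d.card + 1) * W (Subgroup.centralizer ({u} : Set G) ⊓ stab d) (top d) = 0 := by
  have hUp : IsPGroup ℓ U := by
    have h := (H97.isPGroup_zp hu).to_le hU
    exact h
  set S := (chainsOn (psubIn ℓ Y) ⊥).filter (fun d => u ∈ stab d) with hS
  let m : Finset (Subgroup G) → Subgroup G := fun d => greatest (d.filter (fun P => ¬ U ≤ P)) ⊥
  let e : Finset (Subgroup G) → Subgroup G := fun d => m d ⊔ U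
  have hue : ∀ d, U ≤ e d := fun d => (le_sup_right : U ≤ e d)
  have hm : ∀ d ∈ S, m d ∈ d ∧ ¬ U ≤ m d ∧ ∀ P ∈ d, ¬ U ≤ P → P ≤ m d := by
    intro d hd
    rw [hS, Finset.mem_filter, mem_chainsOn] at hd
    obtain ⟨⟨h1, h2, h3⟩, h4⟩ := hd
    have := greatest_spec (dflt := ⊥) (c := d.filter (fun P => ¬ U ≤ P))
      (h3.mono (by intro y hy; exact Finset.mem_of_mem_filter y hy))
      ⟨⊥, Finset.mem_filter.2 ⟨h2, fun h => hU1 (le_bot_iff.1 h)⟩⟩
    have h5 := Finset.mem_filter.1 this.1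
    exact ⟨h5.1, h5.2, fun P hP hP' => this.2 P (Finset.mem_filter.2 ⟨hP, hP'⟩)⟩
  have hne : ∀ d P, ¬ U ≤ P → P ≠ e d := by
    intro d P hP h
    exact hP (h ▸ hue d)
  have ht : ∀ (d : Finset (Subgroup G)) (P : Subgroup G), P ≠ e d →
      (P ∈ toggle d (e d) ↔ P ∈ d) := by
    intro d P hP
    unfold toggle
    split_ifs with h
    · rw [Finset.mem_erase]
      exact ⟨fun h => h.2, fun h => ⟨hP, h⟩⟩
    · rw [Finset.mem_insert]
      exact ⟨fun h => h.resolve_left hP, fun h => Or.inr h⟩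
  have hmt : ∀ d, m (toggle d (e d)) = m d := by
    intro d
    have : (toggle d (e d)).filter (fun P => ¬ U ≤ P) = d.filter (fun P => ¬ U ≤ P) := by
      ext P
      rw [Finset.mem_filter, Finset.mem_filter]
      constructor
      · rintro ⟨h1, h2⟩
        exact ⟨(ht d P (hne d P h2)).1 h1, h2⟩
      · rintro ⟨h1, h2⟩
        exact ⟨(ht d P (hne d P h2)).2 h1, h2⟩
    change greatest _ ⊥ = greatest _ ⊥
    rw [this]
  have hcmp : ∀ d ∈ S, ∀ P ∈ d, P ≤ e d ∨ e d ≤ P := by
    intro d hd P hP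
    obtain ⟨h1, h2, h3⟩ := hm d hd
    by_cases hup : U ≤ P
    · right
      rw [hS, Finset.mem_filter, mem_chainsOn] at hd
      rcases chain_total hd.1.2.2 hP h1 with h | h
      · exact absurd (hup.trans h) h2
      · exact sup_le h hup
    · left
      exact (h3 P hP hup).trans le_sup_left
  have hins : ∀ d ∈ S, ∃ d₀, m d ∈ d₀ ∧ e d ∉ d₀ ∧
      ((d = d₀ ∧ toggle d (e d) = insert (e d) d₀) ∨
        (d = insert (e d) d₀ ∧ toggle d (e d) = d₀)) := by
    intro d hd
    obtain ⟨h1, h2, h3⟩ := hm d hd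
    by_cases h : e d ∈ d
    · refine ⟨d.erase (e d), Finset.mem_erase.2 ⟨hne d _ h2, h1⟩, Finset.notMem_erase _ _,
        Or.inr ⟨(Finset.insert_erase h).symm, ?_⟩⟩
      rw [toggle, if_pos h]
    · refine ⟨d, h1, h, Or.inl ⟨rfl, ?_⟩⟩
      rw [toggle, if_neg h]
  have hstab : ∀ d ∈ S, Subgroup.centralizer ({u} : Set G) ⊓ stab (toggle d (e d)) =
      Subgroup.centralizer ({u} : Set G) ⊓ stab d := by
    intro d hd
    obtain ⟨d₀, h1, h2, ⟨h3, h4⟩ | ⟨h3, h4⟩⟩ := hins d hd
    · rw [h4, stab_insertU hU h1, ← h3]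
    · rw [h4]
      conv_rhs => rw [h3, stab_insertU hU h1]
  apply sum_toggle S e
  · intro d hd
    have hd' := hd
    rw [hS, Finset.mem_filter, mem_chainsOn] at hd'
    obtain ⟨⟨h1, h2, h3⟩, h4⟩ := hd'
    have h5 : u ∈ Subgroup.centralizer ({u} : Set G) ⊓ stab (toggle d (e d)) := by
      rw [hstab d hd]
      exact ⟨Subgroup.mem_centralizer_singleton_iff.2 rfl, h4⟩
    rw [hS, Finset.mem_filter, mem_chainsOn]
    refine ⟨⟨?_, ?_, ?_⟩, h5.2⟩
    · intro P hP
      by_cases hPe : P = e d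
      · rw [hPe, mem_psubIn']
        obtain ⟨g1, g2, g3⟩ := hm d hd
        have g4 := mem_psubIn'.1 (h1 g1)
        refine ⟨sup_le g4.1 hUY, ?_⟩
        apply IsPGroup.to_sup_of_normal_left' g4.2 hUp
        exact hU.trans ((Subgroup.zpowers_le).2 (H97.mem_stab.1 h4 _ g1))
      · exact h1 ((ht d P hPe).1 hP)
    · exact (ht d _ (hne d ⊥ fun h => hU1 (le_bot_iff.1 h))).2 h2
    · unfold toggle
      split_ifs with h
      · exact h3.mono (by intro y hy; exact Finset.mem_of_mem_erase hy)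
      · rw [Finset.coe_insert]
        apply h3.insert
        intro P hP _
        exact (hcmp d hd P hP).symm
  · intro d hd
    change m (toggle d (e d)) ⊔ U = m d ⊔ U
    rw [hmt]
  · intro d hd
    rw [hstab d hd]
    have hX : Subgroup.centralizer ({u} : Set G) ⊓ stab d ≤
      Subgroup.centralizer ({u} : Set G) := inf_le_left
    rw [← hW _ (top d) hX, ← hW _ (top (toggle d (e d))) hX]
    obtain ⟨d₀, h1, h2, ⟨h3, h4⟩ | ⟨h3, h4⟩⟩ := hins d hd
    · rw [h4, top_insertU h1, Finset.card_insert_of_notMem h2, ← h3]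
      ring
    · have h5 : d.card = d₀.card + 1 := by
        rw [h3, Finset.card_insert_of_notMem h2]
      have h6 : U ⊔ top d = U ⊔ top d₀ := by
        rw [h3, top_insertU h1]
      rw [h4, h5, h6]
      ring

end can

/-- CAN: the chains of `Y` normalised by an `ℓ`-element `u` with `⟨u⟩ ∩ Y ≠ 1` cancel. -/
theorem can : CanStmt := by
  classical
  intro ℓ _ X _ _ Y _ u hu hne W hW
  have h := canU Y u hu (Subgroup.zpowers u ⊓ Y) inf_le_left inf_le_right hne W
    (fun K R hK => hW K R hK)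
  exact h

end Pool.Agent.PP.H43
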