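import Pool.Agent.Helper98_PP.StmtsR2
import Pool.Agent.Helper94_PP.Bridge
import Pool.Agent.Helper20_PP.Ibr
import Pool.Agent.Helper65_PP.Shf
import Pool.Agent.Helper43_PP.Box

/-!
# Squad PP, part R2, module SCL: the vanishing of the pair sum does not depend on the unit
-/

open scoped BigOperators

set_option autoImplicit false
set_option linter.unusedSectionVars false

noncomputable section

namespace Pool.Agent.PP.H43

open Pool.Agent.Helper51_AWC Pool.Agent.Helper79_WRA Pool.Agent.PP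

section alg

variable {F H : Type} [Field F] [Group H] [Finite H]

theorem tr_ne_zero' {n : ℕ} {ρ : H →* Matrix (Fin n) (Fin n) F} (hρ : IsIrr ρ) : tr ρ ≠ 0 := by
  intro h0
  have h1 : ∀ B : Matrix (Fin n) (Fin n) F, B.trace = 0 := by
    intro B
    have hB : B ∈ Submodule.span F (Set.range ρ) := by
      rw [hρ.2]; trivial
    induction hB using Submodule.span_induction with
    | mem x hx =>
      obtain ⟨h, rfl⟩ := hx
      exact congrFun h0 h
    | zero => exact Matrix.trace_zero _ _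
    | add x y _ _ hx hy => rw [Matrix.trace_add, hx, hy, add_zero]
    | smul c x _ hx => rw [Matrix.trace_smul, hx, smul_zero]
  have h2 := h1 (Matrix.single ⟨0, hρ.1⟩ ⟨0, hρ.1⟩ 1)
  rw [Matrix.trace_single_eq_same] at h2
  exact one_ne_zero h2

/-- In a commutative artinian ring the powers of an element become stable. -/
theorem exists_stable {x : MonoidAlgebra F H} (hx : x ∈ Subalgebra.center F (MonoidAlgebra F H)) :
    ∃ (n : ℕ) (c : MonoidAlgebra F H), c ∈ Subalgebra.center F (MonoidAlgebra F H) ∧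
      x ^ (n + 1) * c = x ^ n := by
  have hfin : Module.Finite F (MonoidAlgebra F H) :=
    Module.Finite.equiv (maL (F := F) (H := H))
  have hfin2 : Module.Finite F (Subalgebra.center F (MonoidAlgebra F H)) :=
    inferInstanceAs (Module.Finite F (Subalgebra.center F (MonoidAlgebra F H)).toSubmodule)
  have hart : IsArtinianRing (Subalgebra.center F (MonoidAlgebra F H)) :=
    IsArtinianRing.of_finite F _
  obtain ⟨n, y, hy⟩ := IsArtinian.exists_pow_succ_smul_dvd
    (⟨x, hx⟩ : Subalgebra.center F (MonoidAlgebra F H))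
    (1 : Subalgebra.center F (MonoidAlgebra F H))
  refine ⟨n, y, y.2, ?_⟩
  have h := congrArg Subtype.val hy
  simpa using h

/-- The idempotent of Fitting. -/
theorem exists_fitting {x : MonoidAlgebra F H}
    (hx : x ∈ Subalgebra.center F (MonoidAlgebra F H)) :
    ∃ (k : ℕ) (G y : MonoidAlgebra F H), G ∈ Subalgebra.center F (MonoidAlgebra F H) ∧
      G * G = G ∧ G * x ^ (k + 1) = x ^ (k + 1) ∧ G = x ^ (k + 1) * y := by
  obtain ⟨n, c, hc, h⟩ := exists_stable hx
  have hcx : ∀ w : MonoidAlgebra F H, c * w = w * c := fun w =>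
    ((Subalgebra.mem_center_iff.1 hc) w).symm
  have key : ∀ j : ℕ, x ^ (n + 1 + j) * c ^ j = x ^ (n + 1) := by
    intro j
    induction j with
    | zero => rw [add_zero, pow_zero, mul_one]
    | succ j ih =>
      calc x ^ (n + 1 + (j + 1)) * c ^ (j + 1) = x ^ (j + 1) * (x ^ (n + 1) * c) * c ^ j := by
            rw [pow_succ' c j, ← mul_assoc, ← mul_assoc, ← pow_add]
            congr 3
            omega
        _ = x ^ (n + 1 + j) * c ^ j := by
            rw [h, ← pow_add]
            congr 2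
            omega
        _ = _ := ih
  have hcc : ∀ (j : ℕ) (w : MonoidAlgebra F H), c ^ j * w = w * c ^ j := by
    intro j w
    exact (Commute.pow_left (show Commute c w from hcx w) j)
  refine ⟨n, x ^ (n + 1) * c ^ (n + 1), c ^ (n + 1), ?_, ?_, ?_, rfl⟩
  · exact mul_mem (pow_mem hx _) (pow_mem hc _)
  · calc x ^ (n + 1) * c ^ (n + 1) * (x ^ (n + 1) * c ^ (n + 1)) =
          x ^ (n + 1) * (c ^ (n + 1) * x ^ (n + 1)) * c ^ (n + 1) := by
            simp only [mul_assoc]
      _ = (x ^ (n + 1 + (n + 1)) * c ^ (n + 1)) * c ^ (n + 1) := by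
            rw [hcc, pow_add x (n + 1) (n + 1)]
            simp only [mul_assoc]
      _ = _ := by rw [key]
  · rw [mul_assoc, hcc, ← mul_assoc, ← pow_add, key]

/-- a block acts as the identity in some irreducible representation -/
theorem exists_rep {ℓ : ℕ} (hF : GoodF ℓ F) {f : H → F} (hf : IsIdem f) (hf0 : f ≠ 0) :
    ∃ (n : ℕ) (ρ : H →* Matrix (Fin n) (Fin n) F), IsIrr ρ ∧ ev ρ f = 1 := by
  by_contra hcon
  push Not at hcon
  obtain ⟨k, hk⟩ := H20.ibn ℓ F hF H f (by
    intro n ρ hρ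
    obtain ⟨w, hw, -, hw2⟩ := H20.eig F H n ρ hρ f hf.1
    rcases hw2 hf with rfl | rfl
    · rw [hw, map_zero]
    · exact absurd (by rw [hw, map_one]) (hcon n ρ hρ))
  apply hf0
  apply ma_injective
  rw [← hk, ma_iterate]
  have he : ma f * ma f = ma f := by rw [← ma_mul, hf.2]
  have : ∀ j : ℕ, ma f ^ j * ma f = ma f := by
    intro j
    induction j with
    | zero => rw [pow_zero, one_mul]
    | succ j ih => rw [pow_succ, mul_assoc, he, ih]
  exact (this k).symm

/-- The residue of a central element under a block. -/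
theorem residue {ℓ : ℕ} (hF : GoodF ℓ F) {f z : H → F} (hf : IsBlk f) (hz : IsCl z)
    (hfz : mulF f z = z) :
    ∃ (c : F) (k : ℕ), (mulF (z - c • f))^[k] (z - c • f) = 0 := by
  obtain ⟨n, ρ, hρ, hρf⟩ := exists_rep hF hf.1 hf.2.1
  obtain ⟨c, hc, -, -⟩ := H20.eig F H n ρ hρ z hz
  refine ⟨c, ?_⟩
  have hn : n ≠ 0 := hρ.1.ne'
  have hfc : ma f ∈ Subalgebra.center F (MonoidAlgebra F H) := (isCl_iff f).1 hf.1.1
  have hzc : ma z ∈ Subalgebra.center F (MonoidAlgebra F H) := (isCl_iff z).1 hz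
  have hff : ma f * ma f = ma f := by rw [← ma_mul, hf.1.2]
  have hfz' : ma f * ma z = ma z := by rw [← ma_mul, hfz]
  set x : MonoidAlgebra F H := ma (z - c • f) with hx
  have hx' : x = ma z - c • ma f := by rw [hx, ma_sub, ma_smul]
  have hxc : x ∈ Subalgebra.center F (MonoidAlgebra F H) := by
    rw [hx']
    exact sub_mem hzc (Subalgebra.smul_mem _ hfc c)
  have hfx : ma f * x = x := by rw [hx', mul_sub, hfz', mul_smul_comm, hff]
  have hρx : repA ρ x = 0 := by
    rw [hx', map_sub, map_smul, ← ev_eq, ← ev_eq, hc, hρf, Matrix.smul_one_eq_diagonal]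
    exact sub_self _
  obtain ⟨k, G, y, hGc, hGG, hGx, hGy⟩ := exists_fitting hxc
  obtain ⟨g, hg⟩ := ma_surjective G
  have hgI : IsIdem g := by
    rw [isIdem_iff, hg]
    exact ⟨hGc, hGG⟩
  have hfg : mulF f g = g := by
    apply ma_injective
    rw [ma_mul, hg, hGy, pow_succ', ← mul_assoc, ← mul_assoc, hfx]
  refine ⟨k, ?_⟩
  apply ma_injective
  rw [ma_iterate, ma_zero, ← pow_succ, ← hx]
  rcases hf.2.2 g hgI with h | h
  · exfalso
    rw [hfg] at h
    have h1 : ev ρ f = 0 := by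
      rw [ev_eq, ← h, hg, hGy, map_mul, map_pow, hρx, zero_pow (Nat.succ_ne_zero k), zero_mul]
    rw [hρf] at h1
    have : Nonempty (Fin n) := ⟨⟨0, hρ.1⟩⟩
    exact one_ne_zero h1
  · rw [hfg] at h
    rw [← hGx, ← hg, h, ma_zero, zero_mul]

end alg

section fix

variable {Y : Type} [Group Y]

theorem fixC_one (d : Finset (Subgroup Y)) : FixC (1 : MulAut Y) d := by
  intro D _
  rw [map_eq_iff]
  intro x
  exact Iff.rfl

theorem fixC_mul {γ δ : MulAut Y} {d : Finset (Subgroup Y)} (h1 : FixC γ d) (h2 : FixC δ d) :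
    FixC (γ * δ) d := by
  intro D hD
  rw [map_eq_iff]
  intro x
  rw [MulAut.mul_apply, map_eq_iff.1 (h1 D hD), map_eq_iff.1 (h2 D hD)]

theorem fixC_inv {γ : MulAut Y} {d : Finset (Subgroup Y)} (h1 : FixC γ d) : FixC γ⁻¹ d := by
  intro D hD
  rw [map_eq_iff]
  intro x
  rw [← map_eq_iff.1 (h1 D hD) (γ⁻¹ x)]
  have : γ (γ⁻¹ x) = x := γ.apply_symm_apply x
  rw [this]

theorem fixC_kap {γ δ : MulAut Y} {d : Finset (Subgroup Y)} (h1 : FixC γ d) (h2 : FixC δ d) :
    FixC (kap γ δ) d :=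
  fixC_mul (fixC_mul (fixC_mul h1 h2) (fixC_inv h1)) (fixC_inv h2)

end fix

section chain

variable {F Y : Type} [Field F] [Group Y] [Finite Y]

theorem impl_one {X : Subgroup Y} {n : ℕ} (ρ : X →* Matrix (Fin n) (Fin n) F) :
    Impl ρ (1 : MulAut Y) 1 := by
  intro h h' e
  have : h' = h := Subtype.ext e
  rw [this, Units.val_one, one_mul, mul_one]

theorem isCl_restr {a : Y → F} (ha : IsCl a) (X : Subgroup Y) : IsCl (fun t : X => a t) := by
  intro x y
  exact ha x y

/-- multiplicativity on class functions -/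
theorem ev_cl_mul (hThe : TheStmt) {ℓ : ℕ} (hF : GoodF ℓ F) {d : Finset (Subgroup Y)}
    (hd : d ∈ chainsOn (psubIn ℓ (⊤ : Subgroup Y)) ⊥) (hn : NormalChain d) {n : ℕ}
    {ρ : stab d →* Matrix (Fin n) (Fin n) F} (hρ : IsIrr ρ) {a b : Y → F} (ha : IsCl a)
    (hb : IsCl b) :
    ev ρ (fun t : stab d => a t) * ev ρ (fun t : stab d => b t) =
      ev ρ (fun t : stab d => mulF a b t) := by
  have h := hThe ℓ F hF Y d hd hn n ρ hρ 1 1 (fixC_one d) (fixC_one d) a b
    (fun m y => by rw [inv_one, MulAut.one_apply]; exact ha y m)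
    (fun m y => by rw [inv_one, MulAut.one_apply]; exact hb y m) 1 (impl_one ρ)
  rw [Units.val_one, mul_one, one_mul] at h
  exact h

theorem isCl_mulF' {a b : Y → F} (ha : IsCl a) (hb : IsCl b) : IsCl (mulF a b) := by
  rw [isCl_iff] at ha hb ⊢
  rw [ma_mul]
  exact mul_mem ha hb

theorem isCl_iter {a : Y → F} (ha : IsCl a) (k : ℕ) : IsCl ((mulF a)^[k] a) := by
  induction k with
  | zero => exact ha
  | succ k ih =>
    rw [Function.iterate_succ_apply']
    exact isCl_mulF' ha ih

theorem ev_iter (hThe : TheStmt) {ℓ : ℕ} (hF : GoodF ℓ F) {d : Finset (Subgroup Y)}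
    (hd : d ∈ chainsOn (psubIn ℓ (⊤ : Subgroup Y)) ⊥) (hn : NormalChain d) {n : ℕ}
    {ρ : stab d →* Matrix (Fin n) (Fin n) F} (hρ : IsIrr ρ) {b : Y → F} (hb : IsCl b) (k : ℕ) :
    ev ρ (fun t : stab d => (mulF b)^[k] b t) = ev ρ (fun t : stab d => b t) ^ (k + 1) := by
  induction k with
  | zero => rw [zero_add, pow_one]; rfl
  | succ k ih =>
    rw [pow_succ' _ (k + 1), ← ih, ev_cl_mul hThe hF hd hn hρ hb (isCl_iter hb k),
      Function.iterate_succ_apply']

theorem ev_residue (hThe : TheStmt) {ℓ : ℕ} (hF : GoodF ℓ F) {d : Finset (Subgroup Y)}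
    (hd : d ∈ chainsOn (psubIn ℓ (⊤ : Subgroup Y)) ⊥) (hn : NormalChain d) {n : ℕ}
    {ρ : stab d →* Matrix (Fin n) (Fin n) F} (hρ : IsIrr ρ) {f z : Y → F} (hf : IsCl f)
    (hz : IsCl z) {c : F} {k : ℕ} (hk : (mulF (z - c • f))^[k] (z - c • f) = 0)
    (hf1 : ev ρ (fun t : stab d => f t) = 1) :
    ev ρ (fun t : stab d => z t) = c • (1 : Matrix (Fin n) (Fin n) F) := by
  have hb : IsCl (z - c • f) := by
    intro x y
    change z _ - c * f _ = z x - c * f x
    rw [hz, hf]
  have h1 := ev_iter hThe hF hd hn hρ hb k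
  rw [hk] at h1
  have h0 : ev ρ (fun t : stab d => (0 : Y → F) t) = 0 := by
    have : (fun t : stab d => (0 : Y → F) t) = (0 : stab d → F) := rfl
    rw [this, ev_eq, ma_zero, map_zero]
  rw [h0] at h1
  obtain ⟨μ, hμ, -, -⟩ := H20.eig F (stab d) n ρ hρ _ (isCl_restr hb (stab d))
  rw [hμ, ← map_pow] at h1
  have : Nonempty (Fin n) := ⟨⟨0, hρ.1⟩⟩
  have h2 : μ ^ (k + 1) = 0 := by
    have h3 := congrFun (congrFun h1 ⟨0, hρ.1⟩) ⟨0, hρ.1⟩
    rw [Matrix.scalar_apply, Matrix.diagonal_apply_eq] at h3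
    exact h3.symm
  have h4 : μ = 0 := pow_eq_zero_iff (Nat.succ_ne_zero k) |>.1 h2
  rw [h4, map_zero] at hμ
  have e : (fun t : stab d => z t) = (fun t : stab d => (z - c • f) t) +
      c • (fun t : stab d => f t) := by
    funext t
    change z t = (z t - c * f t) + c * f t
    ring
  rw [e, ev_add, ev_smul, hμ, hf1, zero_add]

/-- `(c⁻¹ w) z = c⁻¹ (w z)` -/
theorem mulF_shift (c : Y) (w z : Y → F) :
    mulF (fun y => w (c * y)) z = fun y => mulF w z (c * y) := by
  funext x
  unfold mulF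
  have h := finsum_comp_equiv (Equiv.mulLeft c)
    (f := fun t => w t * z (t⁻¹ * (c * x)))
  rw [← h]
  refine finsum_congr fun t => ?_
  simp only [Equiv.coe_mulLeft, mul_inv_rev, mul_assoc, inv_mul_cancel_left]

end chain

/-- The algebra of units. -/
theorem unit_alg {F Y : Type} [Field F] [Group Y] [Finite Y] {f : Y → F} {γ : MulAut Y}
    {w wi w' wi' : Y → F} (hf : IsIdem f) (h : Unt f γ w wi) (h' : Unt f γ w' wi') :
    IsCl (mulF wi w') ∧ mulF f (mulF wi w') = mulF wi w' ∧ mulF w (mulF wi w') = w' ∧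
      mulF (mulF wi w') (mulF wi' w) = f := by
  have hfc : ∀ x, ma f * x = x * ma f := fun x =>
    ((Subalgebra.mem_center_iff.1 ((isCl_iff f).1 hf.1)) x).symm
  have hE : ma f * ma f = ma f := by rw [← ma_mul, hf.2]
  have e1 : ma f * ma w = ma w := by rw [← ma_mul, h.fw]
  have e2 : ma f * ma wi = ma wi := by rw [← ma_mul, h.fwi]
  have e3 : ma w * ma wi = ma f := by rw [← ma_mul, h.unit]
  have e4 : ma wi * ma w = ma f := by rw [← ma_mul, h.unit']
  have e1' : ma f * ma w' = ma w' := by rw [← ma_mul, h'.fw]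
  have e3' : ma w' * ma wi' = ma f := by rw [← ma_mul, h'.unit]
  have comm : ∀ {v : Y → F}, (∀ n y, v (γ⁻¹ n * y * n⁻¹) = v y) → ∀ n : Y,
      ma v * MonoidAlgebra.single n 1 = MonoidAlgebra.single (γ⁻¹ n) 1 * ma v := by
    intro v hv n
    apply ma_ext
    intro t
    have a1 : (ma v * MonoidAlgebra.single n (1 : F)).coeff t = v (t * n⁻¹) := by
      rw [MonoidAlgebra.coeff_mul_single_apply, mul_one]
      rfl
    have a2 : (MonoidAlgebra.single (γ⁻¹ n) (1 : F) * ma v).coeff t = v ((γ⁻¹ n)⁻¹ * t) := by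
      rw [MonoidAlgebra.coeff_single_mul_apply, one_mul]
      rfl
    rw [a1, a2, ← hv n ((γ⁻¹ n)⁻¹ * t), mul_inv_cancel_left]
  have hIE : ma wi * ma f = ma wi := by rw [← hfc, e2]
  have hI : ∀ n : Y, MonoidAlgebra.single n 1 * ma wi =
      ma wi * MonoidAlgebra.single (γ⁻¹ n) 1 := by
    intro n
    calc MonoidAlgebra.single n 1 * ma wi = MonoidAlgebra.single n 1 * (ma f * ma wi) := by
          rw [e2]
      _ = ma wi * (ma w * MonoidAlgebra.single n 1) * ma wi := by
          rw [← mul_assoc, ← hfc, ← e4]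
          simp only [mul_assoc]
      _ = ma wi * MonoidAlgebra.single (γ⁻¹ n) 1 * (ma w * ma wi) := by
          rw [comm h.comm]
          simp only [mul_assoc]
      _ = _ := by
          rw [e3, mul_assoc, ← hfc, ← mul_assoc, hIE]
  have hZ : ∀ n : Y, ma wi * ma w' * MonoidAlgebra.single n 1 =
      MonoidAlgebra.single n 1 * (ma wi * ma w') := by
    intro n
    rw [mul_assoc, comm h'.comm, ← mul_assoc, ← hI, mul_assoc]
  refine ⟨?_, ?_, ?_, ?_⟩
  · intro x y
    have h1 := congrArg (fun z => MonoidAlgebra.coeff z (y * x)) (hZ y)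
    simp only [← ma_mul] at h1
    rw [MonoidAlgebra.coeff_mul_single_apply, MonoidAlgebra.coeff_single_mul_apply, mul_one,
      one_mul, inv_mul_cancel_left] at h1
    exact h1
  · apply ma_injective
    rw [ma_mul, ma_mul, ← mul_assoc, e2]
  · apply ma_injective
    rw [ma_mul, ma_mul, ← mul_assoc, e3, e1']
  · apply ma_injective
    rw [ma_mul, ma_mul, ma_mul, mul_assoc, ← mul_assoc (ma w'), e3', ← mul_assoc, hIE, e4]

/-- **SCL** -/
theorem scl (hTsb : TsbStmt) (hThe : TheStmt) : SclStmt := by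
  intro ℓ F _ hF Y _ _ f α β w wi w' wi' hT hT' τ hτ h0
  obtain ⟨hz, hfz, hwz, hz3⟩ := unit_alg hT.blk.1 hT.unt hT'.unt
  obtain ⟨-, -, -, hz3'⟩ := unit_alg hT.blk.1 hT'.unt hT.unt
  set z := mulF wi w' with hzdef
  obtain ⟨c, k, hk⟩ := residue hF hT.blk hz hfz
  -- `c ≠ 0`
  have hc : c ≠ 0 := by
    rintro rfl
    rw [zero_smul, sub_zero] at hk
    have h1 : ma z ^ (k + 1) = 0 := by
      have h2 := congrArg ma hk
      rw [ma_iterate, ma_zero, ← pow_succ] at h2
      exact h2
    have h3 : ma z * ma (mulF wi' w) = ma f := by rw [← ma_mul, hz3]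
    have hcm : Commute (ma z) (ma (mulF wi' w)) :=
      ((Subalgebra.mem_center_iff.1 ((isCl_iff z).1 hz)) _).symm
    have h4 : ma f ^ (k + 1) = 0 := by rw [← h3, hcm.mul_pow, h1, zero_mul]
    have hE : IsIdempotentElem (ma f) := ((isIdem_iff f).1 hT.blk.1).2
    rw [hE.pow_succ_eq k] at h4
    apply hT.blk.2.1
    apply ma_injective
    rw [h4, ma_zero]
  -- the scalars
  have key : ∀ (n m : Y) (d : Finset (Subgroup Y)),
      d ∈ chainsOn (psubIn ℓ (⊤ : Subgroup Y)) ⊥ → NormalChain d → FixC (tw α n) d →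
      FixC (tw β m) d →
      tcon τ f (tw α n) (tw β m) (fun y => w' (cc α β n m * y)) d =
        τ c * tcon τ f (tw α n) (tw β m) (fun y => w (cc α β n m * y)) d := by
    intro n m d hd hn hfa hfb
    obtain ⟨⟨wi1, hS⟩, -⟩ := H65.shf ℓ F hF Y f α β w wi hT n m
    obtain ⟨⟨wi1', hS'⟩, -⟩ := H65.shf ℓ F hF Y f α β w' wi' hT' n m
    have hts : ∀ φ ∈ tset (stab d) f (tw α n) (tw β m),
        τ (ts (stab d) φ (tw α n) (tw β m) (fun y => w' (cc α β n m * y))) =
        τ c * τ (ts (stab d) φ (tw α n) (tw β m) (fun y => w (cc α β n m * y))) := by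
      intro φ hφ
      obtain ⟨h1, -, h3⟩ := hTsb ℓ F hF Y f _ _ _ wi1 hS d hd hfa hfb φ hφ
      obtain ⟨-, h2', -⟩ := hTsb ℓ F hF Y f _ _ _ wi1' hS' d hd hfa hfb φ hφ
      have h3 := h3 hn
      set s := ts (stab d) φ (tw α n) (tw β m) (fun y => w (cc α β n m * y)) with hs
      obtain ⟨N, ρ, A, B, hρ, hρφ, hA, hB, hAB⟩ := h1
      have hf1 : ev ρ (fun t : stab d => f t) = 1 := by
        obtain ⟨c0, hc0, hc0', -⟩ := H20.eig F (stab d) N ρ hρ _
          (isCl_restr hT.blk.1.1 (stab d))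
        have h4 := hφ.2.1
        rw [← hρφ, hc0'] at h4
        have h5 : c0 = 1 := by
          by_contra hne
          apply tr_ne_zero' hρ
          have h6 : (c0 - 1) • tr ρ = 0 := by rw [sub_smul, one_smul, h4, sub_self]
          exact (smul_eq_zero.1 h6).resolve_left (sub_ne_zero.2 hne)
        rw [hc0, h5, map_one]
      have hzc : ev ρ (fun t : stab d => z t) = c • (1 : Matrix (Fin N) (Fin N) F) :=
        ev_residue hThe hF hd hn hρ hT.blk.1.1 hz hk hf1
      have h7 := hThe ℓ F hF Y d hd hn N ρ hρ (kap (tw α n) (tw β m)) 1 (fixC_kap hfa hfb)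
        (fixC_one d) (fun y => w (cc α β n m * y)) z hS.unt.comm
        (fun m y => by rw [inv_one, MulAut.one_apply]; exact hz y m) 1 (impl_one ρ)
      rw [Units.val_one, mul_one, one_mul, hzc] at h7
      have h8 : mulF (fun y => w (cc α β n m * (1 : MulAut Y) y)) z =
          fun y => w' (cc α β n m * y) := by
        have h9 := mulF_shift (cc α β n m) w z
        rw [hwz] at h9
        exact h9
      have h10 : ev ρ (fun t : stab d => w' (cc α β n m * t)) =
          c • ev ρ (fun t : stab d => w (cc α β n m * t)) := by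
        rw [mul_smul_comm, mul_one] at h7
        rw [h7]
        congr 1
        funext t
        exact (congrFun h8 t).symm
      have h11 : IsTS (stab d) φ (tw α n) (tw β m) (fun y => w' (cc α β n m * y)) (c * s) := by
        refine ⟨N, ρ, A, B, hρ, hρφ, hA, hB, ?_⟩
        rw [h10, mul_smul_comm, hAB, ← smul_eq_mul, Matrix.smul_eq_diagonal_mul]
        rw [Matrix.scalar_apply, Matrix.scalar_apply, Matrix.diagonal_mul_diagonal]
        rfl
      rw [← h2' _ h11, hτ.mul c s hc h3]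
    unfold tcon
    rw [finsum_mem_congr rfl hts, ← mul_finsum_mem]
    ring
  have hDD : DD τ ℓ f α β w' = τ c * DD τ ℓ f α β w := by
    classical
    unfold DD
    rw [mul_finsum]
    refine finsum_congr fun n => ?_
    rw [mul_finsum]
    refine finsum_congr fun m => ?_
    rw [Finset.mul_sum]
    refine Finset.sum_congr rfl fun d hd => ?_
    have hd := Finset.mem_filter.1 hd
    rw [key n m d hd.1 hd.2.1 hd.2.2.1 hd.2.2.2]
    ring
  rw [hDD, h0, mul_zero]

end Pool.Agent.PP.H43
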