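import Pool.Agent.Helper63_PP.Smt
import Pool.Agent.Helper66_PP.StmtsLQ

/-!
# Squad PP, module SMO: the second main theorem for class functions vanishing on a normal subgroup
-/

open scoped BigOperators

set_option linter.unusedSectionVars false

noncomputable section

namespace Pool.Agent.PP.H43

open Pool.Agent.PP Pool.Agent.PP.H63 Pool.Agent.Helper51_AWC Pool.Agent.Helper79_WRA

section smo

variable {F H : Type} [Field F] [Group H]

/-- `ℓ`-regular elements lie in the normal subgroups of `ℓ`-power index. -/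
theorem reg_mem {ℓ : ℕ} {L : Subgroup H} [L.Normal] (hL : ∃ n : ℕ, L.index = ℓ ^ n) {x : H}
    (hx : Reg ℓ x) : x ∈ L := by
  obtain ⟨n, hn⟩ := hL
  have h1 : x ^ (ℓ ^ n) ∈ L := hn ▸ L.pow_index_mem x
  have h2 : (orderOf x).Coprime (ℓ ^ n) := Nat.Coprime.pow_right n hx
  obtain ⟨m, hm⟩ := exists_pow_eq_self_of_coprime (x := x) (n := ℓ ^ n) h2.symm
  rw [← hm]
  exact L.pow_mem h1 m

theorem phi_eval {ℓ q : ℕ} (hq : Proj ℓ q H) {f : H → F} (hf : IsCl f) (x : H) :
    ∃ (j : JJ ℓ H) (y : H) (w : Subgroup.centralizer ({rp j} : Set H)),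
      y * rp j * y⁻¹ = x * (x ^ q)⁻¹ ∧ f x = phi q (rp j) f w := by
  obtain ⟨u, h1, h2, h3⟩ := (hq x).2.2
  have h3' : x * (x ^ q)⁻¹ = u := by
    have h4 : x = u * x ^ q := by rw [← h1.eq]; exact h3
    calc x * (x ^ q)⁻¹ = (u * x ^ q) * (x ^ q)⁻¹ := by rw [← h4]
      _ = u := mul_inv_cancel_right u (x ^ q)
  obtain ⟨j, y, hy⟩ := exists_rp h2
  have h4 : y⁻¹ * x ^ q * y ∈ Subgroup.centralizer ({rp j} : Set H) := by
    rw [Subgroup.mem_centralizer_singleton_iff]
    have h5 : rp j = y⁻¹ * u * y := by rw [← hy]; group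
    rw [h5]
    calc y⁻¹ * x ^ q * y * (y⁻¹ * u * y) = y⁻¹ * (x ^ q * u) * y := by group
      _ = y⁻¹ * (u * x ^ q) * y := by rw [h1.eq]
      _ = y⁻¹ * u * y * (y⁻¹ * x ^ q * y) := by group
  refine ⟨j, y, ⟨_, h4⟩, by rw [hy, h3'], ?_⟩
  change f x = f (rp j * (y⁻¹ * x ^ q * y) ^ q)
  have h7 : (y⁻¹ * x ^ q * y) ^ q = y⁻¹ * x ^ q * y := by
    have h8 : y⁻¹ * x ^ q * y = y⁻¹ * x ^ q * (y⁻¹)⁻¹ := by rw [inv_inv]
    rw [h8, conj_pow, hq.pow_pow]
  rw [h7]
  have h9 : x = y * (rp j * (y⁻¹ * x ^ q * y)) * y⁻¹ := by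
    have h10 : y * (rp j * (y⁻¹ * x ^ q * y)) * y⁻¹ = (y * rp j * y⁻¹) * x ^ q := by group
    rw [h10, hy, ← h1.eq]
    exact h3
  conv_lhs => rw [h9]
  exact hf _ _

/-- The classes of `ℓ`-elements outside `L`. -/
def JO (ℓ : ℕ) {H : Type} [Group H] (L : Subgroup H) : Type := {j : JJ ℓ H // rp j ∉ L}

instance {ℓ : ℕ} [Finite H] {L : Subgroup H} : Finite (JO ℓ L) := by
  unfold JO
  infer_instance

theorem phi_zero {ℓ q : ℕ} (hq : Proj ℓ q H) {L : Subgroup H} [L.Normal]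
    (hL : ∃ n : ℕ, L.index = ℓ ^ n) {f : H → F} (hf : f ∈ cfsO F L) {u : H} (hu : u ∈ L) :
    phi q u f = 0 := by
  funext w
  exact hf.2 _ (L.mul_mem hu (reg_mem hL (hq (w : H)).1))

theorem rank_sumO {ℓ q : ℕ} (hF : GoodF ℓ F) [Finite H] (hq : Proj ℓ q H)
    {L : Subgroup H} [L.Normal] (hL : ∃ n : ℕ, L.index = ℓ ^ n) [Fintype (JO ℓ L)]
    {e : H → F} (he : IsIdem e) :
    rk e (cfsO F L) = ∑ j : JO ℓ L, rk (fun t : Subgroup.centralizer ({rp j.1} : Set H) => e t)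
      (TT F (Subgroup.centralizer ({rp j.1} : Set H)) ℓ) := by
  classical
  have := Fintype.ofFinite H
  unfold rk
  have hmem : ∀ j : JO ℓ L, ∀ g ∈ (cfsO F L).map (actL e), phiL F q (rp j.1) g ∈
      (TT F (Subgroup.centralizer ({rp j.1} : Set H)) ℓ).map
        (actL (fun t : Subgroup.centralizer ({rp j.1} : Set H) => e t)) := by
    rintro j _ ⟨f, hf, rfl⟩
    refine ⟨phi q (rp j.1) f, phi_TT hq hf.1 _, ?_⟩
    exact (phi_act hF hq he hf.1 (rp_pow j.1)).symm
  let Ψ : ((cfsO F L).map (actL e)) →ₗ[F]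
      (∀ j : JO ℓ L, ((TT F (Subgroup.centralizer ({rp j.1} : Set H)) ℓ).map
        (actL (fun t : Subgroup.centralizer ({rp j.1} : Set H) => e t)))) :=
    LinearMap.pi fun j => (phiL F q (rp j.1)).restrict (hmem j)
  have hinj : Function.Injective Ψ := by
    rw [← LinearMap.ker_eq_bot, LinearMap.ker_eq_bot']
    rintro ⟨_, f, hf, rfl⟩ h
    apply Subtype.ext
    refine phi_inj hq (act_cl he.1 hf.1) (fun j => ?_)
    by_cases hj : rp j ∈ L
    · change phi q (rp j) (actF e f) = 0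
      rw [phi_act hF hq he hf.1 (rp_pow j), phi_zero hq hL hf hj]
      exact (actL (fun t : Subgroup.centralizer ({rp j} : Set H) => e t)).map_zero
    · exact congrArg Subtype.val (congrFun h ⟨j, hj⟩)
  have hsurj : Function.Surjective Ψ := by
    intro φ
    choose ψ hψ1 hψ2 using fun j => (φ j).2
    have h0 : ∀ j : JJ ℓ H, (if hj : rp j ∈ L then 0 else ψ ⟨j, hj⟩ :
        Subgroup.centralizer ({rp j} : Set H) → F) ∈
        TT F (Subgroup.centralizer ({rp j} : Set H)) ℓ := by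
      intro j
      split_ifs with hj
      · exact Submodule.zero_mem _
      · exact hψ1 ⟨j, hj⟩
    obtain ⟨f, hf, hf2⟩ := phi_surj hq _ h0
    have hfO : f ∈ cfsO F L := by
      refine ⟨hf, fun x hx => ?_⟩
      obtain ⟨j, y, w, h1, h2⟩ := phi_eval hq hf x
      have h3 : y * rp j * y⁻¹ ∈ L := by
        rw [h1]
        exact L.mul_mem hx (L.inv_mem (L.pow_mem hx q))
      have h4 : rp j ∈ L := by
        have h5 := (inferInstance : L.Normal).conj_mem _ h3 y⁻¹
        have h6 : y⁻¹ * (y * rp j * y⁻¹) * y⁻¹⁻¹ = rp j := by group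
        rwa [h6] at h5
      rw [h2, hf2 j, dif_pos h4]
      rfl
    refine ⟨⟨actL e f, f, hfO, rfl⟩, ?_⟩
    funext j
    apply Subtype.ext
    change phi q (rp j.1) (actF e f) = _
    rw [phi_act hF hq he hf (rp_pow j.1), hf2, dif_neg j.2]
    exact hψ2 j
  rw [(LinearEquiv.ofBijective Ψ ⟨hinj, hsurj⟩).finrank_eq, Module.finrank_pi_fintype]

end smo

/-- SMO: the second main theorem for the class functions vanishing on `L`. -/
theorem smo : SmoStmt := by
  classical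
  intro ℓ F _ hF H _ _ L hLn hL e he
  obtain ⟨M, -, hq⟩ := Pool.Agent.PP.H74.exists_power H hF.prime 0
  have hq' : Proj ℓ (ℓ ^ M) H := hq
  have hJ : Fintype (JO ℓ L) := Fintype.ofFinite _
  have hrnk := Pool.Agent.PP.H74.rnk Pool.Agent.PP.H20.ibf Pool.Agent.PP.H20.eig
    (Pool.Agent.PP.H74.brt Pool.Agent.PP.H20.ibf Pool.Agent.PP.H20.ibc
    Pool.Agent.PP.H20.ibj Pool.Agent.PP.H20.ibn)
  rw [rank_sumO hF hq' hL he, Finset.mul_sum]
  have h1 : ∀ j : JO ℓ L, Nat.card H * rk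
      (fun t : Subgroup.centralizer ({rp j.1} : Set H) => e t)
        (TT F (Subgroup.centralizer ({rp j.1} : Set H)) ℓ) =
      ∑ u ∈ Finset.univ.filter (fun u : H => ConjClasses.mk u = j.1.1),
        Nat.card (Subgroup.centralizer ({u} : Set H)) *
          lnum (Subgroup.centralizer ({u} : Set H)) e := by
    intro j
    have h2 : rk (fun t : Subgroup.centralizer ({rp j.1} : Set H) => e t)
        (TT F (Subgroup.centralizer ({rp j.1} : Set H)) ℓ) =
        lnum (Subgroup.centralizer ({rp j.1} : Set H)) e :=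
      hrnk ℓ F hF _ _ (idem_cent hF he (rp_pow j.1))
    rw [h2, ← class_sum (rp j.1), Finset.sum_mul, mk_rp]
    apply Finset.sum_congr rfl
    intro u hu
    rw [Finset.mem_filter, ← mk_rp] at hu
    obtain ⟨y, hy⟩ := isConj_iff.1 (ConjClasses.mk_eq_mk_iff_isConj.1 hu.2.symm)
    rw [← hy, lnum_conj he.1]
  rw [Finset.sum_congr rfl (fun j _ => h1 j)]
  have hconj : ∀ (v y : H), v ∈ L ↔ y * v * y⁻¹ ∈ L := by
    intro v y
    constructor
    · intro h
      exact hLn.conj_mem v h y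
    · intro h
      have h5 := hLn.conj_mem _ h y⁻¹
      have h6 : y⁻¹ * (y * v * y⁻¹) * y⁻¹⁻¹ = v := by group
      rwa [h6] at h5
  rw [← Finset.sum_fiberwise_of_maps_to (s := Finset.univ.filter
    (fun u : H => (∃ n : ℕ, u ^ ℓ ^ n = 1) ∧ u ∉ L))
    (t := (Finset.univ : Finset (JO ℓ L)).image (fun j => j.1.1))
    (g := fun u => ConjClasses.mk u)]
  · rw [Finset.sum_image (g := fun j : JO ℓ L => j.1.1)
      (fun a _ b _ h => Subtype.ext (Subtype.ext h))]
    apply Finset.sum_congr rfl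
    intro j _
    apply Finset.sum_congr _ (fun _ _ => rfl)
    ext u
    rw [Finset.mem_filter, Finset.mem_filter, Finset.mem_filter]
    constructor
    · rintro ⟨_, hu⟩
      refine ⟨⟨Finset.mem_univ _, ?_⟩, hu⟩
      rw [← mk_rp] at hu
      obtain ⟨y, hy⟩ := isConj_iff.1 (ConjClasses.mk_eq_mk_iff_isConj.1 hu.symm)
      obtain ⟨n, hn⟩ := rp_pow j.1
      refine ⟨⟨n, ?_⟩, ?_⟩
      · rw [← hy, conj_pow, hn]
        group
      · rw [← hy, ← hconj]
        exact j.2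
    · rintro ⟨_, hu⟩
      exact ⟨Finset.mem_univ _, hu⟩
  · intro u hu
    rw [Finset.mem_filter] at hu
    obtain ⟨j, y, hy⟩ := exists_rp hu.2.1
    have hj : rp j ∉ L := by
      rw [hconj _ y, hy]
      exact hu.2.2
    rw [Finset.mem_image]
    refine ⟨⟨j, hj⟩, Finset.mem_univ _, ?_⟩
    change j.1 = _
    rw [← mk_rp, ConjClasses.mk_eq_mk_iff_isConj]
    exact isConj_iff.2 ⟨y, hy⟩

end Pool.Agent.PP.H43
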